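import Pool.Agent.K3h16.MI.Stm2
import Pool.Agent.K3h95.MI.CHI

/-!
# Integrability of `|x-y|^σ` on `M × M` for `σ > -m`
-/

set_option autoImplicit false

open MeasureTheory Set Filter Topology
open scoped ContDiff ENNReal

namespace Pool.Agent.K3h51.MI

open Pool.Agent.K3h16.MI

/-- a parametrization expands distances by a positive factor on balls -/
theorem expand (hHAD : S_HAD) {m n : ℕ} {γ : E m → E n} (hs : ContDiff ℝ ∞ γ)
    (hinj : Function.Injective γ) (him : ∀ u, Function.Injective (fderiv ℝ γ u)) (R : ℝ) :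
    ∃ c : ℝ, 0 < c ∧ ∀ u u' : E m, ‖u‖ ≤ R → ‖u'‖ ≤ R → c * ‖u - u'‖ ≤ ‖γ u - γ u'‖ := by
  obtain ⟨q, hq, h1, h2, -⟩ := hHAD m n γ hs
  have hK : IsCompact (Metric.closedBall (0 : E m) R ×ˢ
      (Metric.sphere (0 : E m) 1 ×ˢ Icc (0 : ℝ) (2 * R))) :=
    (isCompact_closedBall _ _).prod ((isCompact_sphere _ _).prod isCompact_Icc)
  have hf : Continuous (fun p : E m × E m × ℝ => ‖q p.1 p.2.1 p.2.2‖) := hq.continuous.norm
  obtain ⟨c, hc, hcK⟩ := hK.exists_forall_le' (f := fun p : E m × E m × ℝ => ‖q p.1 p.2.1 p.2.2‖)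
    (a := 0) hf.continuousOn (by
      rintro ⟨u, θ, t⟩ ⟨-, hθ, ht⟩
      simp only [mem_sphere_iff_norm, sub_zero] at hθ
      have hθ0 : θ ≠ 0 := by
        rintro rfl
        rw [norm_zero] at hθ
        exact zero_ne_one hθ
      apply norm_pos_iff.2
      intro h0
      by_cases ht0 : t = 0
      · rw [ht0] at h0
        simp only at h0
        rw [h2] at h0
        apply hθ0
        apply him u
        rw [h0, map_zero]
      · have h3 := h1 u θ t
        simp only at h0
        rw [h0, smul_zero] at h3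
        have h4 := hinj (sub_eq_zero.1 h3.symm)
        have h5 : t • θ = 0 := by
          have := add_eq_left.1 h4
          exact this
        rcases smul_eq_zero.1 h5 with h | h
        · exact ht0 h
        · exact hθ0 h)
  refine ⟨c, hc, fun u u' hu hu' => ?_⟩
  by_cases huu : u = u'
  · rw [huu, sub_self, norm_zero, mul_zero]
    exact norm_nonneg _
  · have ht : 0 < ‖u' - u‖ := norm_pos_iff.2 (sub_ne_zero.2 (Ne.symm huu))
    have hmem : ((u, ‖u' - u‖⁻¹ • (u' - u), ‖u' - u‖) : E m × E m × ℝ) ∈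
        Metric.closedBall (0 : E m) R ×ˢ
          (Metric.sphere (0 : E m) 1 ×ˢ Icc (0 : ℝ) (2 * R)) := by
      refine ⟨?_, ?_, ht.le, ?_⟩
      · simpa using hu
      · simp only [mem_sphere_iff_norm, sub_zero]
        rw [norm_smul, norm_inv, norm_norm, inv_mul_cancel₀ ht.ne']
      · exact (norm_sub_le _ _).trans (by linarith)
    have h3 := hcK _ hmem
    have h4 := h1 u (‖u' - u‖⁻¹ • (u' - u)) ‖u' - u‖
    rw [smul_smul, mul_inv_cancel₀ ht.ne', one_smul, add_sub_cancel] at h4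
    have h5 : ‖γ u' - γ u‖ = ‖u' - u‖ * ‖q u (‖u' - u‖⁻¹ • (u' - u)) ‖u' - u‖‖ := by
      rw [← h4, norm_smul, norm_norm]
    rw [norm_sub_rev u u', norm_sub_rev (γ u) (γ u'), h5, mul_comm]
    exact mul_le_mul_of_nonneg_left h3 ht.le

/-- the power of the norm is integrable on balls -/
theorem ball_int {m : ℕ} (hm : 1 ≤ m) {σ : ℝ} (hσ : -(m : ℝ) < σ) (r : ℝ) :
    ∫⁻ h in Metric.ball (0 : E m) r, ENNReal.ofReal (‖h‖ ^ σ) < ⊤ := by
  have hmeas : Measurable (fun h : E m => ‖h‖ ^ σ) := measurable_norm.pow_const σ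
  have h1 : IntegrableOn (fun h : E m => ‖h‖ ^ σ) (Metric.ball 0 r) volume := by
    refine integrableOn_ball_of_norm_le_rpow (C := 1) (α := -σ) ?_ ?_ ?_ ?_
    · rw [finrank_euclideanSpace_fin]
      exact hm
    · rw [finrank_euclideanSpace_fin]
      linarith
    · refine Eventually.of_forall fun x => ?_
      rw [neg_neg, one_mul, Real.norm_eq_abs, abs_of_nonneg (by positivity)]
    · exact hmeas.aestronglyMeasurable
  have h2 := h1.2
  rw [hasFiniteIntegral_iff_ofReal (Eventually.of_forall fun x => by positivity)] at h2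
  exact h2

/-- the contribution of one parametrization -/
theorem chart (hHAD : S_HAD) {m n : ℕ} (hm : 1 ≤ m) {M : Set (E n)} {e : E n → Fin m → E n}
    {v : Measure (E n)} (hM : IsOCS M e v) {γ : E m → E n} (hγ : IsParam M γ)
    {K1 K2 : Set (E m)} (hK1 : IsCompact K1) (hK2 : IsCompact K2) {σ : ℝ}
    (hσ : -(m : ℝ) < σ) (hσ0 : σ < 0) :
    ∃ C : ℝ≥0∞, C < ⊤ ∧ ∀ u₀ ∈ K1, ∀ S : Set (E n), MeasurableSet S → S ⊆ γ '' K2 →
      ∫⁻ y in S, ENNReal.ofReal (‖γ u₀ - y‖ ^ σ) ∂v ≤ C := by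
  obtain ⟨R1, hR1⟩ := hK1.isBounded.exists_norm_le
  obtain ⟨R2, hR2⟩ := hK2.isBounded.exists_norm_le
  obtain ⟨c, hc, hexp⟩ := expand hHAD hγ.smooth hγ.embedding.injective hγ.immersion (max R1 R2)
  have hjc : Continuous (fun u => jac γ u) := Pool.Agent.K3h95.MI.continuous_jac hγ.smooth
  obtain ⟨B, hB⟩ : ∃ B : ℝ, ∀ u ∈ K2, ‖jac γ u‖ ≤ B := hK2.exists_bound_of_continuousOn hjc.continuousOn
  have hrm := Pool.Agent.K3h95.MI.measurableSet_range hM.compact hγ
  have hjm : Measurable fun u => ENNReal.ofReal (jac γ u) := hjc.measurable.ennreal_ofReal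
  set r : ℝ := 2 * max R1 R2 + 1 with hr
  refine ⟨ENNReal.ofReal (B * c ^ σ) *
    ∫⁻ h in Metric.ball (0 : E m) r, ENNReal.ofReal (‖h‖ ^ σ), ?_, ?_⟩
  · exact ENNReal.mul_lt_top ENNReal.ofReal_lt_top (ball_int hm hσ r)
  · intro u₀ hu₀ S hS hSK
    have hSr : S ⊆ range γ := hSK.trans (image_subset_range _ _)
    have hFm : Measurable (fun y : E n => ENNReal.ofReal (‖γ u₀ - y‖ ^ σ)) :=
      ((measurable_const.sub measurable_id).norm.pow_const σ).ennreal_ofReal
    have h1 : ∫⁻ y in S, ENNReal.ofReal (‖γ u₀ - y‖ ^ σ) ∂v =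
        ∫⁻ u, ENNReal.ofReal (jac γ u) *
          (S.indicator (fun y : E n => ENNReal.ofReal (‖γ u₀ - y‖ ^ σ))) (γ u) := by
      have e1 : ∫⁻ y in S, ENNReal.ofReal (‖γ u₀ - y‖ ^ σ) ∂v =
          ∫⁻ y, S.indicator (fun y : E n => ENNReal.ofReal (‖γ u₀ - y‖ ^ σ)) y
            ∂(v.restrict (range γ)) := by
        rw [lintegral_indicator hS, Measure.restrict_restrict hS, inter_eq_left.2 hSr]
      have hcm : Measurable (fun u : E m =>
          (S.indicator (fun y : E n => ENNReal.ofReal (‖γ u₀ - y‖ ^ σ))) (γ u)) :=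
        (hFm.indicator hS).comp hγ.smooth.continuous.measurable
      rw [e1, hM.vol_param γ hγ, lintegral_map (hFm.indicator hS) hγ.smooth.continuous.measurable,
        lintegral_withDensity_eq_lintegral_mul _ hjm hcm]
      rfl
    rw [h1]
    have h2 : ∀ u : E m, ENNReal.ofReal (jac γ u) *
        (S.indicator (fun y : E n => ENNReal.ofReal (‖γ u₀ - y‖ ^ σ))) (γ u) ≤
        ENNReal.ofReal (B * c ^ σ) * (Metric.ball (0 : E m) r).indicator
          (fun h => ENNReal.ofReal (‖h‖ ^ σ)) (u - u₀) := by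
      intro u
      by_cases hu : γ u ∈ S
      · have huK : u ∈ K2 := by
          obtain ⟨u', hu', h3⟩ := hSK hu
          rw [← hγ.embedding.injective h3]
          exact hu'
        have hn0 : ‖u₀‖ ≤ max R1 R2 := (hR1 u₀ hu₀).trans (le_max_left _ _)
        have hn1 : ‖u‖ ≤ max R1 R2 := (hR2 u huK).trans (le_max_right _ _)
        have hball : u - u₀ ∈ Metric.ball (0 : E m) r := by
          rw [mem_ball_zero_iff]
          have := norm_sub_le u u₀
          linarith
        have hj0 : 0 ≤ jac γ u := Real.sqrt_nonneg _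
        rw [indicator_of_mem hu, indicator_of_mem hball, ← ENNReal.ofReal_mul hj0,
          ← ENNReal.ofReal_mul' (by positivity)]
        apply ENNReal.ofReal_le_ofReal
        have hj : jac γ u ≤ B := (le_abs_self _).trans (hB u huK)
        have h3 := hexp u₀ u hn0 hn1
        have h4 : ‖γ u₀ - γ u‖ ^ σ ≤ c ^ σ * ‖u - u₀‖ ^ σ := by
          by_cases huu : u = u₀
          · rw [huu, sub_self, norm_zero, Real.zero_rpow hσ0.ne]
            rw [sub_self, norm_zero, Real.zero_rpow hσ0.ne, mul_zero]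
          · have h5 : 0 < ‖u - u₀‖ := norm_pos_iff.2 (sub_ne_zero.2 huu)
            rw [← Real.mul_rpow hc.le h5.le]
            apply Real.rpow_le_rpow_of_nonpos (by positivity) _ hσ0.le
            rw [norm_sub_rev u u₀]
            exact h3
        calc jac γ u * ‖γ u₀ - γ u‖ ^ σ ≤ B * (c ^ σ * ‖u - u₀‖ ^ σ) :=
              mul_le_mul hj h4 (by positivity) (hj0.trans hj)
          _ = B * c ^ σ * ‖u - u₀‖ ^ σ := by ring
      · rw [indicator_of_notMem hu, mul_zero]
        exact zero_le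
    refine (lintegral_mono h2).trans (le_of_eq ?_)
    have hbm : Measurable ((Metric.ball (0 : E m) r).indicator
        (fun h : E m => ENNReal.ofReal (‖h‖ ^ σ))) :=
      (measurable_norm.pow_const σ).ennreal_ofReal.indicator measurableSet_ball
    have hbm2 : Measurable (fun a : E m => (Metric.ball (0 : E m) r).indicator
        (fun h : E m => ENNReal.ofReal (‖h‖ ^ σ)) (a - u₀)) :=
      hbm.comp (measurable_id.sub measurable_const)
    rw [lintegral_const_mul _ hbm2,
      lintegral_sub_right_eq_self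
        (fun h => (Metric.ball (0 : E m) r).indicator (fun h => ENNReal.ofReal (‖h‖ ^ σ)) h) u₀,
      lintegral_indicator measurableSet_ball]

/-- the inner integral is bounded -/
theorem inner_bound (hPOU : S_POU) (hHAD : S_HAD) {m n : ℕ} (hm : 1 ≤ m) {M : Set (E n)}
    {e : E n → Fin m → E n} {v : Measure (E n)} (hM : IsOCS M e v) [IsFiniteMeasure v] {σ : ℝ}
    (hσ : -(m : ℝ) < σ) (hσ0 : σ < 0) :
    ∃ C : ℝ≥0∞, C < ⊤ ∧ ∀ x ∈ M, ∫⁻ y, ENNReal.ofReal (‖x - y‖ ^ σ) ∂v ≤ C := by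
  obtain ⟨K, γ, χ, η, W, δ, -, hMW, hδ, hsum, hk⟩ := hPOU m n M e v hM
  have hch : ∀ k : Fin K, ∃ C : ℝ≥0∞, C < ⊤ ∧ ∀ u₀ ∈ tsupport (fun u => χ k (γ k u)),
      ∀ S : Set (E n), MeasurableSet S → S ⊆ γ k '' tsupport (fun u => η k (γ k u)) →
      ∫⁻ y in S, ENNReal.ofReal (‖γ k u₀ - y‖ ^ σ) ∂v ≤ C := by
    intro k
    obtain ⟨hp, -, -, -, hc1, hc2, -⟩ := hk k
    exact chart hHAD hm hM hp hc1.isCompact hc2.isCompact hσ hσ0
  choose C hC hCb using hch
  refine ⟨∑ k, C k + ENNReal.ofReal (δ ^ σ) * v univ, ?_, ?_⟩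
  · refine ENNReal.add_lt_top.2 ⟨?_, ENNReal.mul_lt_top ENNReal.ofReal_lt_top (measure_lt_top _ _)⟩
    rw [ENNReal.sum_lt_top]
    intro k _
    exact hC k
  · intro x hx
    have h0 : ∃ k, χ k x ≠ 0 := by
      by_contra hcon
      push Not at hcon
      have h1 := hsum x (hMW hx)
      rw [Finset.sum_eq_zero (fun k _ => hcon k)] at h1
      exact zero_ne_one h1
    obtain ⟨k, hkx⟩ := h0
    obtain ⟨hp, -, hχs, hηs, hc1, hc2, hrg, hnear, -⟩ := hk k
    have hxr : x ∈ range (γ k) := by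
      by_contra hcon
      exact hkx (hrg x hx hcon).1
    obtain ⟨u₀, rfl⟩ := hxr
    have hu₀ : u₀ ∈ tsupport (fun u => χ k (γ k u)) := subset_tsupport _ hkx
    set S : Set (E n) := M ∩ {y | η k y ≠ 0} with hSdef
    have hSm : MeasurableSet S := by
      apply hM.compact.isClosed.measurableSet.inter
      exact (isOpen_ne_fun hηs.continuous continuous_const).measurableSet
    have hSK : S ⊆ γ k '' tsupport (fun u => η k (γ k u)) := by
      rintro y ⟨hyM, hy⟩
      have hyr : y ∈ range (γ k) := by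
        by_contra hcon
        exact hy (hrg y hyM hcon).2
      obtain ⟨u, rfl⟩ := hyr
      exact ⟨u, subset_tsupport _ hy, rfl⟩
    have h1 := hCb k u₀ hu₀ S hSm hSK
    have h2 : ∫⁻ y in Sᶜ, ENNReal.ofReal (‖γ k u₀ - y‖ ^ σ) ∂v ≤
        ENNReal.ofReal (δ ^ σ) * v univ := by
      have hae : ∀ᵐ y ∂v, y ∈ M := by
        rw [ae_iff]
        exact hM.vol_compl
      have h3 : ∀ᵐ y ∂v, y ∈ Sᶜ → ENNReal.ofReal (‖γ k u₀ - y‖ ^ σ) ≤ ENNReal.ofReal (δ ^ σ) := by
        filter_upwards [hae] with y hy hyS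
        apply ENNReal.ofReal_le_ofReal
        have h4 : δ ≤ ‖γ k u₀ - y‖ := by
          by_contra hcon
          push Not at hcon
          have h5 := hnear _ hx y hy hcon hkx
          apply hyS
          refine ⟨hy, ?_⟩
          show η k y ≠ 0
          rw [h5]
          exact one_ne_zero
        exact Real.rpow_le_rpow_of_nonpos hδ h4 hσ0.le
      calc ∫⁻ y in Sᶜ, ENNReal.ofReal (‖γ k u₀ - y‖ ^ σ) ∂v
          ≤ ∫⁻ _ in Sᶜ, ENNReal.ofReal (δ ^ σ) ∂v :=
            lintegral_mono_ae ((ae_restrict_iff' hSm.compl).2 h3)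
        _ = ENNReal.ofReal (δ ^ σ) * v Sᶜ := by
            rw [lintegral_const, Measure.restrict_apply_univ]
        _ ≤ ENNReal.ofReal (δ ^ σ) * v univ := by
            gcongr
            exact subset_univ _
    rw [← lintegral_add_compl _ hSm]
    refine add_le_add (h1.trans ?_) h2
    exact Finset.single_le_sum (f := C) (fun i _ => zero_le) (Finset.mem_univ k)

theorem t_INT : S_POU → S_CHI → S_HAD → S_FIN → S_INT := by
  intro hPOU _ hHAD hFIN m n M e v hm hM σ hσ
  have : IsFiniteMeasure v := hFIN m n M e v hM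
  have hae : ∀ᵐ x ∂v, x ∈ M := by
    rw [ae_iff]
    exact hM.vol_compl
  have hmeas : Measurable (fun p : E n × E n => ‖p.1 - p.2‖ ^ σ) :=
    (measurable_fst.sub measurable_snd).norm.pow_const σ
  by_cases hσ0 : σ < 0
  · obtain ⟨C, hC, hCb⟩ := inner_bound hPOU hHAD hm hM hσ hσ0
    refine ⟨hmeas.aestronglyMeasurable, ?_⟩
    rw [hasFiniteIntegral_iff_ofReal (Eventually.of_forall fun x => by positivity),
      lintegral_prod _ hmeas.ennreal_ofReal.aemeasurable]
    calc ∫⁻ x, ∫⁻ y, ENNReal.ofReal (‖x - y‖ ^ σ) ∂v ∂v ≤ ∫⁻ _, C ∂v := by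
          apply lintegral_mono_ae
          filter_upwards [hae] with x hx
          exact hCb x hx
      _ = C * v univ := lintegral_const _
      _ < ⊤ := ENNReal.mul_lt_top hC (measure_lt_top _ _)
  · push Not at hσ0
    obtain ⟨R, hR⟩ := hM.compact.isBounded.exists_norm_le
    have h1 : ∀ᵐ p ∂(v.prod v), p.1 ∈ M := Measure.quasiMeasurePreserving_fst.ae hae
    have h2 : ∀ᵐ p ∂(v.prod v), p.2 ∈ M := Measure.quasiMeasurePreserving_snd.ae hae
    refine Integrable.mono' (integrable_const ((2 * R) ^ σ)) hmeas.aestronglyMeasurable ?_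
    filter_upwards [h1, h2] with p hp1 hp2
    rw [Real.norm_eq_abs, abs_of_nonneg (by positivity)]
    apply Real.rpow_le_rpow (norm_nonneg _) _ hσ0
    have h3 := norm_sub_le p.1 p.2
    have h4 := hR _ hp1
    have h5 := hR _ hp2
    linarith

end Pool.Agent.K3h51.MI
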